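import Pool.Agent.Helper77.PPO.Goals2
import Pool.Agent.Helper32.LE.FSIG
import Pool.Agent.Helper79.PP.DMAP

/-!
# Project PP (MP_fc6b1e_nt), case `χ₀ = 1`, packet `O_DENF`: the density theorem for families
-/

namespace Pool.Agent.Helper32.PPO

open NumberField Polynomial Module IsDedekindDomain TensorProduct Pool.Agent.Helper51.SigLeo
open Pool.Agent.Helper51.RP Pool.Agent.Helper42.RD Pool.Agent.Helper11.LE Pool.Agent.Helper11.PP
open Pool.Agent.Helper77.RL (Sqr AtT Adm TwistAll)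
open Pool.Agent.Helper77.PPO Pool.Agent.Helper77.PPL
open Pool.Agent.Helper79.PP (clp_eq clp_eq_one dvd_iff nice_val)

/-- A trivial twisted Selmer group of the class of `N` implies that `N` is good. -/
theorem good_core (h3 : O_GOL) (h5 : D_TAM) (h6 : D_UNR)
    (p : ℕ) [Fact p.Prime] (K : Type) [Field K] [NumberField K]
    (ιinf : AlgebraicClosure K →+* ℂ) (ιp : AlgebraicClosure K →+* ℂ_[p]) (Lg : IwasawaLog p ℂ_[p])
    (S : Set (K →+* ℂ)) (hcl : PlaceClosed (TSet ιinf ιp S)) (hno : ¬ ∃ ξ : K, IsPrimitiveRoot ξ p)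
    (M : IntermediateField K (AlgebraicClosure K)) [NumberField M] [IsGalois K M] (hM : M = ⊥)
    (χ₀ : (M ≃ₐ[K] M) →* ℂ_[p]ˣ)
    (K₁ : Type) [Field K₁] [NumberField K₁] [Algebra K K₁] (ε : K₁) (hC : Cyc p K K₁ ε)
    (j : K₁ →+* AlgebraicClosure K)
    (hj : ∀ x : K, j (algebraMap K K₁ x) = algebraMap K (AlgebraicClosure K) x)
    (N : IntermediateField K (AlgebraicClosure K)) (hN : N ∈ CycN p K) (hF : N ∈ CycF p K)
    (c : ClP p K₁) (hc : c ∈ ASet p K ε) (hg : ∀ a : K₁ˣ, clp p a = c → Gen p j a N)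
    (hs : ∀ x ∈ SelO1 Lg (TSet ιinf ιp S) c, x = 1) : TwF ιinf ιp Lg S M χ₀ N := by
  have hp : p.Prime := Fact.out
  obtain ⟨hc1, a₀, hac, hom, hni⟩ := hc
  obtain ⟨b, y, hb, hby⟩ := id hni
  have hbU : ((a₀ * y ^ p : K₁ˣ) : K₁) = (b : K₁) := by
    rw [Units.val_mul, Units.val_pow_eq_pow_val, hby]
  have hcb : clp p (a₀ * y ^ p) = c := by
    rw [← hac]
    exact (clp_eq.2 ⟨y, rfl⟩).symm
  have hb0 : b ≠ 0 := by
    rintro rfl
    exact (a₀ * y ^ p).ne_zero (by rw [hbU]; simp)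
  have homb : OmType p K ε (b : K₁) := by
    intro τ
    obtain ⟨n, d, h1, h2⟩ := hom τ
    refine ⟨n, d * τ (y : K₁) * ((y : K₁)⁻¹) ^ n, h1, ?_⟩
    have hy0 : (y : K₁) ≠ 0 := y.ne_zero
    rw [hby, map_mul, map_pow, h2]
    rw [mul_pow (a₀ : K₁), mul_pow, mul_pow, ← pow_mul, ← pow_mul, inv_pow, mul_comm n p]
    field_simp
  have hsel : ∀ x : Kˣ, SelO Lg (TSet ιinf ιp S) (b : K₁) x → Pw p x := by
    intro x hx
    rw [← clp_eq_one]
    exact hs _ ⟨x, a₀ * y ^ p, rfl, hcb, by rw [hbU]; exact hx⟩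
  have hnb : ¬ Pw p (a₀ * y ^ p) := by
    rw [← clp_eq_one, hcb]
    exact hc1
  obtain ⟨s, hsp⟩ := IsAlgClosed.exists_pow_nat_eq (j (b : K₁)) hp.pos
  have hsK : ¬ ∃ z : K₁, j z = s := by
    rintro ⟨z, rfl⟩
    have h1 : z ^ p = (b : K₁) := by
      apply j.injective
      rw [map_pow, hsp]
    have hz0 : z ≠ 0 := by
      rintro rfl
      rw [zero_pow hp.ne_zero] at h1
      exact hb0 (by
        have : ((0 : 𝓞 K₁) : K₁) = (b : K₁) := by rw [← h1]; simp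
        exact (NumberField.RingOfIntegers.ext this).symm)
    apply hnb
    refine ⟨Units.mk0 z hz0, ?_⟩
    apply Units.ext
    rw [hbU, Units.val_pow_eq_pow_val, Units.val_mk0, h1]
  have hgb : Gen p j (a₀ * y ^ p) N := hg _ hcb
  have hram : ∀ v : HeightOneSpectrum (𝓞 K), RamIn N v ↔
      ∃ Q : HeightOneSpectrum (𝓞 K₁), Above Q v ∧ ¬ (p : ℤ) ∣ ordv Q (b : K₁) := by
    intro v
    by_cases hv : (p : 𝓞 K) ∈ v.asIdeal
    · have hl : ¬ RamIn N v := h6 p K N hN v (hF.2.2 v hv)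
      refine iff_of_false hl ?_
      rintro ⟨W, hW, hnd⟩
      apply hnd
      rw [← hbU, dvd_iff]
      refine nice_val hni W ?_
      have h9 : (p : 𝓞 K) ∈ W.asIdeal.comap (algebraMap (𝓞 K) (𝓞 K₁)) := by
        rw [show W.asIdeal.comap (algebraMap (𝓞 K) (𝓞 K₁)) = v.asIdeal from hW]
        exact hv
      rw [Ideal.mem_comap, map_natCast] at h9
      exact h9
    · rw [h5 p K K₁ ε hC j hj _ hN (a₀ * y ^ p) hnb hgb v hv]
      simp only [hbU]
  intro hGN L _ _ hNL hadm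
  refine h3 p K ιinf ιp Lg S hcl hno M χ₀ hM K₁ ε hC b hb0 hb homb hsel j hj s hsp hsK N hN.1
    (fun g hg1 hg2 ↦ hgb s (by rw [hsp, hbU]) g hg1 hg2) L hNL ?_
  have hset : {v : HeightOneSpectrum (𝓞 K) | (∃ w : HeightOneSpectrum (𝓞 M), Above w v ∧ FreeP K w) ∧
      ∃ Q : HeightOneSpectrum (𝓞 K₁), Above Q v ∧ ¬ (p : ℤ) ∣ ordv Q (b : K₁)} =
      {v | RamIn N v ∧ ∃ w : HeightOneSpectrum (𝓞 M), Above w v ∧ FreeP K w} := by
    ext v
    show (_ ∧ _) ↔ (_ ∧ _)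
    rw [hram v]
    exact and_comm
  rw [hset]
  exact hadm

/-- The core, for an abstract field `K₁ = K(ε)`. -/
theorem o_core (h1 : O_MOM) (h2 : O_ASM) (h3 : O_GOL) (h4 : D_MAP) (h5 : D_TAM) (h6 : D_UNR)
    (p : ℕ) [Fact p.Prime] (K : Type) [Field K] [NumberField K] (ιinf : AlgebraicClosure K →+* ℂ)
    (ιp : AlgebraicClosure K →+* ℂ_[p]) (Lg : IwasawaLog p ℂ_[p])
    (M : IntermediateField K (AlgebraicClosure K)) [NumberField M] [IsGalois K M] (hM : M = ⊥)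
    (hno : ¬ ∃ ξ : K, IsPrimitiveRoot ξ p)
    (ι : Type) [Nonempty ι] (S : ι → Set (K →+* ℂ)) (χ₀ : ι → ((M ≃ₐ[K] M) →* ℂ_[p]ˣ)) (n : ℕ)
    (c : ι → Fin n) (hS : ∀ i, IsCMType (S i))
    (hord : ∀ i, ∀ σ τ : K →+* AlgebraicClosure K, (∀ x, ‖ιp (σ x)‖ = ‖ιp (τ x)‖) →
      (ιinf.comp σ ∈ S i ↔ ιinf.comp τ ∈ S i))
    (hcS : ∀ i j, c i = c j → S i = S j)
    (K₁ : Type) [Field K₁] [NumberField K₁] [Algebra K K₁] (ε : K₁) (hC : Cyc p K K₁ ε)
    (j : K₁ →+* AlgebraicClosure K)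
    (hj : ∀ x : K, j (algebraMap K K₁ x) = algebraMap K (AlgebraicClosure K) x) :
  (∀ X : ℝ, 0 < X → Summable fun N : CycF p K ↦ Real.exp (-(cond K N.1 : ℝ) / X)) ∧
  (∀ η : ℝ, 0 < η → ∀ᶠ X : ℝ in Filter.atTop,
    ∑' N : {N | N ∈ CycF p K ∧ ∃ i, ¬ TwF ιinf ιp Lg (S i) M (χ₀ i) N},
      Real.exp (-(cond K N.1 : ℝ) / X) ≤
    ((n : ℝ) / (p - 1) + η) * ∑' N : CycF p K, Real.exp (-(cond K N.1 : ℝ) / X)) ∧
  (∀ X : ℕ, {N | N ∈ CycN p K ∧ cond K N ≤ X}.Finite) ∧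
  (n + 1 < p → ∃ c : ℝ, 0 < c ∧ ∀ᶠ X : ℕ in Filter.atTop,
    0 < {N | N ∈ CycN p K ∧ cond K N ≤ X}.ncard ∧
    c * {N | N ∈ CycN p K ∧ cond K N ≤ X}.ncard ≤
      {N | N ∈ CycF p K ∧ cond K N ≤ X ∧
        ∀ i, TwF ιinf ιp Lg (S i) M (χ₀ i) N}.ncard) := by
  classical
  have hp : p.Prime := Fact.out
  have hp1 : (0 : ℝ) < (p : ℝ) - 1 := by
    have h := hp.one_lt
    have h' : (1 : ℝ) < (p : ℝ) := by exact_mod_cast h
    linarith
  have hp0 : (0 : ℝ) < (p : ℝ) := by linarith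
  have hchar : CharZero (AlgebraicClosure K) :=
    charZero_of_injective_algebraMap (algebraMap K (AlgebraicClosure K)).injective
  have hclT : ∀ i, PlaceClosed (TSet ιinf ιp (S i)) := fun i ↦
    Pool.Agent.Helper35.RD.tset_closed ιinf ιp (S i) (hord i)
  have hrk : ∀ i, Units.rank K + 1 ≤ (TSet ιinf ιp (S i)).ncard := fun i ↦
    Pool.Agent.Helper32.LE.rank_cm ιinf ιp (S i) (hS i)
  obtain ⟨nf, hnf, hcard, hA, hcond⟩ := h4 p K K₁ ε hC j hj
  obtain ⟨i₀⟩ := (inferInstance : Nonempty ι)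
  have hmom := fun i ↦ h1 p Lg K K₁ ε hC hno (TSet ιinf ιp (S i)) (hclT i) (hrk i)
  obtain ⟨m1, m2, m3, m4, -⟩ := hmom i₀
  let Bd : Fin n → Set (ClP p K₁) := fun r ↦
    {c' | ∃ i, c i = r ∧ ∃ x ∈ SelO1 Lg (TSet ιinf ιp (S i)) c', x ≠ 1}
  let G : Set (IntermediateField K (AlgebraicClosure K)) :=
    {N | ∀ i, TwF ιinf ιp Lg (S i) M (χ₀ i) N}
  have hAB : ∀ c ∈ ASet p K ε, c ∈ BSet p K ε := by
    rintro c ⟨hc1, a, hac, hom, -⟩
    exact ⟨hc1, a, hac, hom⟩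
  have hBd : ∀ c' ∈ ASet p K ε, nf c' ∉ G → ∃ r, c' ∈ Bd r := by
    intro c' hc' hG
    by_contra hcon
    apply hG
    intro i hGal
    have hB := hAB c' hc'
    obtain ⟨hN, hg⟩ := hnf c' hB
    refine good_core h3 h5 h6 p K ιinf ιp Lg (S i) (hclT i) hno M hM (χ₀ i) K₁ ε hC j hj
      (nf c') hN ((hA c' hB).1 hc') c' hc' hg ?_
    intro x hx
    by_contra hx1
    exact hcon ⟨c i, i, rfl, x, hx, hx1⟩
  have hconst : ∀ i, (p : ℝ) ^ (Units.rank K + 1) / (p ^ (TSet ιinf ιp (S i)).ncard * (p - 1)) ≤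
      1 / ((p : ℝ) - 1) := by
    intro i
    have h9 : (p : ℝ) ^ (Units.rank K + 1) ≤ (p : ℝ) ^ (TSet ιinf ιp (S i)).ncard :=
      pow_le_pow_right₀ (by linarith) (hrk i)
    rw [div_le_div_iff₀ (mul_pos (pow_pos hp0 _) hp1) hp1, one_mul]
    exact mul_le_mul_of_nonneg_right h9 hp1.le
  have hsum : ∀ r, ∀ η : ℝ, 0 < η → ∀ᶠ X : ℝ in Filter.atTop,
      ∑' c : {c | c ∈ ASet p K ε ∧ c ∈ Bd r}, Real.exp (-(condC K c.1 : ℝ) / X) ≤
        (1 / ((p : ℝ) - 1) + η) * ∑' c : ASet p K ε, Real.exp (-(condC K c.1 : ℝ) / X) := by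
    intro r η hη
    by_cases hr : ∃ i, c i = r
    · obtain ⟨i, hi⟩ := hr
      have hset : {c | c ∈ ASet p K ε ∧ c ∈ Bd r} =
          {c | c ∈ ASet p K ε ∧ ∃ x ∈ SelO1 Lg (TSet ιinf ιp (S i)) c, x ≠ 1} := by
        ext c'
        constructor
        · rintro ⟨h8, i', hi', hx⟩
          refine ⟨h8, ?_⟩
          rw [hcS i i' (hi.trans hi'.symm)]
          exact hx
        · rintro ⟨h8, hx⟩
          exact ⟨h8, i, hi, hx⟩
      rw [hset]
      filter_upwards [(hmom i).2.2.2.2 η hη] with X hX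
      refine hX.trans ?_
      refine mul_le_mul_of_nonneg_right ?_ (tsum_nonneg fun _ ↦ (Real.exp_pos _).le)
      linarith [hconst i]
    · have hem : {c | c ∈ ASet p K ε ∧ c ∈ Bd r} = ∅ := by
        rw [Set.eq_empty_iff_forall_notMem]
        rintro c' ⟨-, i, hi, -⟩
        exact hr ⟨i, hi⟩
      rw [hem]
      refine Filter.Eventually.of_forall fun X ↦ ?_
      have h8 : ∑' c : (∅ : Set (ClP p K₁)), Real.exp (-(condC K c.1 : ℝ) / X) = 0 := by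
        simp
      rw [h8]
      refine mul_nonneg ?_ (tsum_nonneg fun _ ↦ (Real.exp_pos _).le)
      have : 0 < 1 / ((p : ℝ) - 1) := by positivity
      linarith
  obtain ⟨a1, a2, a3, a4⟩ := h2 p K K₁ ε nf (fun c hc ↦ (hnf c hc).1) hcard hA hcond n Bd G
    (1 / ((p : ℝ) - 1)) (by positivity) hBd m1 m2 m3 m4 hsum
  have hmul : (n : ℝ) * (1 / ((p : ℝ) - 1)) = (n : ℝ) / (p - 1) := by ring
  refine ⟨a1, ?_, a3, ?_⟩
  · intro η hη
    have hset : {N | N ∈ CycF p K ∧ ∃ i, ¬ TwF ιinf ιp Lg (S i) M (χ₀ i) N} =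
        {N | N ∈ CycF p K ∧ N ∉ G} := by
      ext N
      show (N ∈ CycF p K ∧ ∃ i, ¬ TwF ιinf ιp Lg (S i) M (χ₀ i) N) ↔
        (N ∈ CycF p K ∧ ¬ ∀ i, TwF ιinf ιp Lg (S i) M (χ₀ i) N)
      rw [← not_forall]
    rw [hset, ← hmul]
    exact a2 η hη
  · intro hn
    have h7 : (n : ℝ) * (1 / ((p : ℝ) - 1)) < 1 := by
      rw [hmul, div_lt_one hp1]
      have : ((n + 1 : ℕ) : ℝ) < (p : ℝ) := by exact_mod_cast hn
      push_cast at this
      linarith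
    exact a4 h7

theorem o_denf (h1 : Pool.Agent.Helper77.PPO.O_MOM) (h2 : Pool.Agent.Helper77.PPO.O_ASM)
    (h3 : Pool.Agent.Helper77.PPO.O_GOL) (h4 : Pool.Agent.Helper11.PP.D_MAP)
    (h5 : Pool.Agent.Helper11.PP.D_TAM) (h6 : Pool.Agent.Helper11.PP.D_UNR) :
    Pool.Agent.Helper77.PPO.O_DENF := by
  intro p _ K _ _ ιinf ιp Lg M _ _ hM hno ι _ S χ₀ n c hS hord hcS
  have : NeZero (p : AlgebraicClosure K) := ⟨by
    have := (Fact.out : p.Prime).ne_zero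
    have hchar : CharZero (AlgebraicClosure K) :=
      charZero_of_injective_algebraMap (algebraMap K (AlgebraicClosure K)).injective
    exact_mod_cast this⟩
  obtain ⟨ζ, hζ⟩ := HasEnoughRootsOfUnity.exists_primitiveRoot (AlgebraicClosure K) p
  let K₁ : IntermediateField K (AlgebraicClosure K) := IntermediateField.adjoin K {ζ}
  have hint : IsIntegral K ζ := Algebra.IsIntegral.isIntegral ζ
  have : FiniteDimensional K K₁ := IntermediateField.adjoin.finiteDimensional hint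
  have : NumberField K₁ := NumberField.of_module_finite K K₁
  have : IsCyclotomicExtension {p} K K₁ := hζ.intermediateField_adjoin_isCyclotomicExtension K
  have : IsGalois K K₁ := IsCyclotomicExtension.isGalois {p} K K₁
  let ε : K₁ := ⟨ζ, IntermediateField.mem_adjoin_simple_self K ζ⟩
  have hε : IsPrimitiveRoot ε p := by
    refine IsPrimitiveRoot.of_map_of_injective (f := algebraMap K₁ (AlgebraicClosure K)) ?_
      (algebraMap K₁ (AlgebraicClosure K)).injective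
    exact hζ
  have hcyc : Cyc p K K₁ ε := by
    refine ⟨hε, inferInstance, ?_⟩
    intro σ hσ
    have h1 : (σ : K₁ →ₐ[K] K₁) = AlgHom.id K K₁ := by
      refine IntermediateField.algHom_ext_of_eq_adjoin K (S := K₁) (s := ({ζ} : Set _)) rfl ?_
      intro x hx
      have hx' : x = ζ := hx
      subst hx'
      exact hσ
    ext x
    have := congrArg (fun f ↦ f x) h1
    simpa using congrArg Subtype.val this
  exact o_core h1 h2 h3 h4 h5 h6 p K ιinf ιp Lg M hM hno ι S χ₀ n c hS hord hcS K₁ ε hcyc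
    (algebraMap K₁ (AlgebraicClosure K)) (fun x ↦ rfl)

end Pool.Agent.Helper32.PPO
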